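import Pool.Agent.H66.Cvx4

namespace Pool.Agent.Results.MP_cfec29_an.NegFails

open Pool.Agent.H66.Cvx

theorem result :
    ∃ (K : Type) (_ : NormedAddCommGroup K) (_ : InnerProductSpace ℂ K) (_ : CompleteSpace K)
      (T : K →L[ℂ] K), ConvexCyclic T ∧ ¬ ConvexCyclic (-T) :=
  ⟨H, inferInstance, inferInstance, inferInstance, -U, cc_neg_U, by rw [neg_neg]; exact not_cc_U⟩

end Pool.Agent.Results.MP_cfec29_an.NegFails
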